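import Pool.Agent.H38.PWS.Stmts

/-! Row `WLB` of the board `pws` of helper38 (MP_83fa19_nt). -/

set_option autoImplicit false

namespace Pool.PWS

open ArithmeticFunction Finset Pool.MKP

/-- the part of `k` carried by a finite set of numbers is at most `k` -/
lemma wlb_part {k : ℕ} (hk : k ≠ 0) (S : Finset ℕ) :
    ∏ z ∈ S, z ^ k.factorization z ≤ k := by
  classical
  have h1 : ∏ z ∈ S, z ^ k.factorization z
      = ∏ z ∈ S ∩ k.primeFactors, z ^ k.factorization z := by
    symm
    apply Finset.prod_subset Finset.inter_subset_left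
    intro z hz hz'
    have h2 : z ∉ k.primeFactors := fun h => hz' (Finset.mem_inter.2 ⟨hz, h⟩)
    have h3 : k.factorization z = 0 := by
      rw [← Nat.support_factorization] at h2
      exact Finsupp.notMem_support_iff.1 h2
    rw [h3, pow_zero]
  rw [h1]
  calc ∏ z ∈ S ∩ k.primeFactors, z ^ k.factorization z
      ≤ ∏ z ∈ k.primeFactors, z ^ k.factorization z := by
        apply Finset.prod_le_prod_of_subset_of_one_le' Finset.inter_subset_right
        intro z hz _
        exact Nat.one_le_pow _ _ (Nat.prime_of_mem_primeFactors hz).pos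
    _ = k := Nat.prod_factorization_pow_eq_self hk

lemma wlb_mem {m n : ℕ} {e : ℕ × ℕ} (he : e ∈ Amb m n) : e.1 < m ∧ e.2.Prime := by
  unfold Amb at he
  rw [Finset.mem_biUnion] at he
  obtain ⟨i, hi, he⟩ := he
  rw [Finset.mem_image] at he
  obtain ⟨z, hz, rfl⟩ := he
  refine ⟨Finset.mem_range.1 hi, ?_⟩
  rcases Finset.mem_union.1 hz with h | h
  · exact Nat.prime_of_mem_primeFactors h
  · exact Nat.prime_of_mem_primeFactors h

/-- product of the prime powers of the elements of `E` -/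
lemma wlb_prod {m n N : ℕ} (hn : 1 ≤ n) (hN : n ≤ N) (E : Finset (ℕ × ℕ)) (hE : E ⊆ Amb m n) :
    ∏ e ∈ E, e.2 ^ val n e ≤ (N ^ 2 ^ m) ^ m := by
  classical
  have hmap : ∀ e ∈ E, e.1 ∈ range m := fun e he => Finset.mem_range.2 (wlb_mem (hE he)).1
  rw [← Finset.prod_fiberwise_of_maps_to hmap]
  have h1 : ∀ i ∈ range m, ∏ e ∈ E with e.1 = i, e.2 ^ val n e ≤ N ^ 2 ^ m := by
    intro i hi
    have hi' : i < m := Finset.mem_range.1 hi
    have h2 : ∏ e ∈ E with e.1 = i, e.2 ^ val n e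
        = ∏ z ∈ (E.filter fun e => e.1 = i).image Prod.snd,
            z ^ (it i n).factorization z := by
      rw [Finset.prod_image]
      · apply Finset.prod_congr rfl
        intro e he
        rw [Finset.mem_filter] at he
        unfold val
        rw [he.2]
      · intro a ha b hb hab
        rw [Finset.mem_coe, Finset.mem_filter] at ha hb
        exact Prod.ext (ha.2.trans hb.2.symm) hab
    rw [h2]
    refine (wlb_part (it_pos hn i).ne' _).trans ((it_le hN i).trans ?_)
    exact Nat.pow_le_pow_right (by omega) (Nat.pow_le_pow_right (by norm_num) hi'.le)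
  refine (Finset.prod_le_prod' h1).trans ?_
  rw [Finset.prod_const, Finset.card_range]

lemma wlb_card (h2 : LLBStmt) {m n N : ℕ} (hn : 1 ≤ n) (hN : n ≤ N) :
    (Amb m n).card ≤ m * (2 * LL m N) := by
  classical
  unfold Amb
  refine Finset.card_biUnion_le.trans ?_
  have hN1 : 1 ≤ N := by omega
  have key : ∀ j ≤ m, (it j n).primeFactors.card ≤ LL m N := by
    intro j hj
    refine ((h2 m N hN1).1 (it j n) (it_pos hn j) ((it_le hN j).trans ?_)).2
    exact Nat.pow_le_pow_right (by omega) (Nat.pow_le_pow_right (by norm_num) hj)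
  have h3 : ∀ i ∈ range m,
      (((it i n).primeFactors ∪ (it m n).primeFactors).image fun z => (i, z)).card
        ≤ 2 * LL m N := by
    intro i hi
    refine Finset.card_image_le.trans ((Finset.card_union_le _ _).trans ?_)
    have := key i (Finset.mem_range.1 hi).le
    have := key m le_rfl
    omega
  refine (Finset.sum_le_sum h3).trans ?_
  rw [Finset.sum_const, Finset.card_range, smul_eq_mul]

theorem WLB (h1 : PBDStmt) (h2 : LLBStmt) : WLBStmt := by
  intro m ε hm hε
  have hm0 : (0 : ℝ) < m := by exact_mod_cast hm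
  have h2m : (0 : ℝ) < 2 ^ m := by positivity
  set δ : ℝ := ε / (2 * m * 2 ^ m) with hδ
  set η : ℝ := ε / (4 * m * 2 ^ (m + 2)) with hη
  have hδ0 : 0 < δ := by positivity
  have hη0 : 0 < η := by positivity
  obtain ⟨c0, hc0, hc⟩ := h1 m δ η hδ0 hη0
  refine ⟨δ, c0 * Real.exp (-(ε / 2)), hδ0, mul_pos hc0 (Real.exp_pos _), ?_⟩
  intro N n hn hnN E hE
  have hN1 : 1 ≤ N := by omega
  have hN1' : (1 : ℝ) ≤ N := by exact_mod_cast hN1
  have hN0 : (0 : ℝ) < N := by linarith
  rw [Finset.prod_mul_distrib]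
  -- first factor
  have hA : c0 * Real.exp (-(ε / 2)) * (N : ℝ) ^ (-(ε / 2))
      ≤ ∏ e ∈ E, (1 - (e.2 : ℝ) ^ (-δ)) := by
    refine le_trans ?_ (hc E fun e he => ⟨(wlb_mem (hE he)).1, (wlb_mem (hE he)).2.two_le⟩)
    rw [mul_assoc]
    apply mul_le_mul_of_nonneg_left _ hc0.le
    rw [Real.rpow_def_of_pos hN0, ← Real.exp_add]
    apply Real.exp_le_exp.2
    have hcard : (E.card : ℝ) ≤ m * (2 * LL m N) := by
      exact_mod_cast (Finset.card_le_card hE).trans (wlb_card h2 hn hnN)
    have hLL := (h2 m N hN1).2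
    have h4 : (E.card : ℝ) ≤ m * (2 * (2 ^ (m + 2) * (1 + Real.log N))) := by
      refine hcard.trans ?_
      apply mul_le_mul_of_nonneg_left _ hm0.le
      linarith
    have h5 : η * E.card ≤ η * (m * (2 * (2 ^ (m + 2) * (1 + Real.log N)))) :=
      mul_le_mul_of_nonneg_left h4 hη0.le
    have h6 : η * (m * (2 * (2 ^ (m + 2) * (1 + Real.log N)))) = ε / 2 * (1 + Real.log N) := by
      rw [hη]
      field_simp
      ring
    rw [h6] at h5
    linarith
  -- second factor
  have hB : (N : ℝ) ^ (-(ε / 2)) ≤ ∏ e ∈ E, ((e.2 : ℝ) ^ (-δ)) ^ val n e := by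
    have e1 : ∀ e ∈ E, ((e.2 : ℝ) ^ (-δ)) ^ val n e = (((e.2 ^ val n e : ℕ)) : ℝ) ^ (-δ) := by
      intro e _
      rw [Nat.cast_pow, ← Real.rpow_natCast, ← Real.rpow_natCast, ← Real.rpow_mul (by positivity),
        ← Real.rpow_mul (by positivity), mul_comm]
    rw [Finset.prod_congr rfl e1, Real.finsetProd_rpow _ _ (fun e _ => Nat.cast_nonneg _),
      ← Nat.cast_prod]
    have hP := wlb_prod hn hnN E hE
    have hP' : (((∏ e ∈ E, e.2 ^ val n e : ℕ)) : ℝ) ≤ (N : ℝ) ^ ((2 : ℝ) ^ m * m) := by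
      have : (((∏ e ∈ E, e.2 ^ val n e : ℕ)) : ℝ) ≤ (((N ^ 2 ^ m) ^ m : ℕ) : ℝ) := by
        exact_mod_cast hP
      refine this.trans (le_of_eq ?_)
      rw [← pow_mul, Nat.cast_pow, ← Real.rpow_natCast]
      push_cast
      rfl
    have hPpos : (0 : ℝ) < ((∏ e ∈ E, e.2 ^ val n e : ℕ) : ℝ) := by
      have : 0 < ∏ e ∈ E, e.2 ^ val n e :=
        Finset.prod_pos fun e he => pow_pos (wlb_mem (hE he)).2.pos _
      exact_mod_cast this
    have h7 : ((N : ℝ) ^ ((2 : ℝ) ^ m * m)) ^ (-δ)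
        ≤ (((∏ e ∈ E, e.2 ^ val n e : ℕ)) : ℝ) ^ (-δ) :=
      Real.rpow_le_rpow_of_nonpos hPpos hP' (by linarith)
    refine le_trans (le_of_eq ?_) h7
    rw [← Real.rpow_mul hN0.le]
    congr 1
    rw [hδ]
    field_simp
  calc c0 * Real.exp (-(ε / 2)) * (N : ℝ) ^ (-ε)
      = (c0 * Real.exp (-(ε / 2)) * (N : ℝ) ^ (-(ε / 2))) * (N : ℝ) ^ (-(ε / 2)) := by
        rw [mul_assoc (c0 * Real.exp (-(ε / 2))), ← Real.rpow_add hN0]
        congr 2
        ring
    _ ≤ _ := by
        apply mul_le_mul hA hB (Real.rpow_nonneg hN0.le _)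
        exact le_trans (by positivity) hA

end Pool.PWS
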